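import Mathlib

namespace Pool.Agent.Results.MP_94066b_nt.Toms

lemma mem_iff (L q m u w x : ℕ) (hL : w * m = L + u * q) (hc : Nat.Coprime m q) :
    L * x ∈ AddSubmonoid.closure ({q, m} : Set ℕ) ↔ ∃ k, x * u ≤ k * m ∧ k * q ≤ x * w := by
  rw [AddSubmonoid.mem_closure_pair]
  simp only [smul_eq_mul]
  constructor
  · rintro ⟨α, β, h⟩
    have h1 : (α + x * u) * q + β * m = x * w * m := by
      rw [mul_assoc x w, hL]
      linarith
    obtain ⟨k, hk⟩ : m ∣ α + x * u :=
      hc.dvd_of_dvd_mul_right ((Nat.dvd_add_left (Dvd.intro_left β rfl)).mp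
        (h1 ▸ Dvd.intro_left _ rfl))
    rcases Nat.eq_zero_or_pos m with rfl | hm
    · exact ⟨0, by omega, by omega⟩
    refine ⟨k, by nlinarith, Nat.le_of_mul_le_mul_right ?_ hm⟩
    rw [hk] at h1
    nlinarith
  · rintro ⟨k, h1, h2⟩
    obtain ⟨α, hα⟩ := Nat.exists_eq_add_of_le h1
    obtain ⟨β, hβ⟩ := Nat.exists_eq_add_of_le h2
    refine ⟨α, β, ?_⟩
    have e1 : k * m * q = (x * u + α) * q := by rw [hα]
    have e2 : x * w * m = (k * q + β) * m := by rw [hβ]
    have e3 : x * (w * m) = x * (L + u * q) := by rw [hL]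
    linarith

lemma sep (h j L : ℕ) (hh : 0 < h) (hp : L.Prime) (hL : 100 * h ^ 4 < L) :
    ∃ q m, 0 < q ∧ 0 < m ∧ Nat.Coprime q m ∧ Nat.Coprime L m ∧ Nat.Coprime L q ∧
      L * h ∉ AddSubmonoid.closure ({q, m} : Set ℕ) ∧
      ∀ x k, j * x < k * h → k * h < (j + 1) * x →
        L * x ∈ AddSubmonoid.closure ({q, m} : Set ℕ) := by
  obtain ⟨n, hn⟩ : ∃ n, n + 1 = 4 * h := ⟨4 * h - 1, by omega⟩
  obtain ⟨m, hm⟩ : ∃ m, m = h * (n + 1) := ⟨_, rfl⟩
  obtain ⟨u, hu⟩ : ∃ u, u = j * (n + 1) + 1 := ⟨_, rfl⟩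
  have hm0 : 0 < m := by rw [hm]; positivity
  have hum : Nat.Coprime u m := by
    have h1 : Nat.Coprime u (n + 1) := by rw [hu]; simp
    rw [hm]
    exact Nat.Coprime.mul_right (h1.coprime_dvd_right ⟨4, by omega⟩) h1
  obtain ⟨q, hq1, hq2, w, hw⟩ : ∃ q, L / n + 1 ≤ q ∧ q ≤ L / n + m ∧ ∃ w, w * m = L + u * q := by
    have : NeZero m := ⟨hm0.ne'⟩
    obtain ⟨v, hv⟩ := (ZMod.isUnit_iff_coprime u m).mpr hum
    let r : ZMod m := -(v⁻¹ : (ZMod m)ˣ) * L - (L / n + 1 : ℕ)
    have hr := ZMod.val_lt r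
    refine ⟨L / n + 1 + r.val, by omega, by omega, ?_⟩
    obtain ⟨w, hw⟩ : m ∣ L + u * (L / n + 1 + r.val) := by
      rw [← ZMod.natCast_eq_zero_iff, Nat.cast_add, Nat.cast_mul, Nat.cast_add _ r.val,
        ZMod.natCast_zmod_val, ← hv]
      simp only [r]
      linear_combination (-(L : ZMod m)) * v.mul_inv
    exact ⟨w, by rw [hw, mul_comm]⟩
  have hn3 : 3 ≤ n := by omega
  have hq0 : 0 < q := lt_of_lt_of_le (Nat.succ_pos _) hq1
  have d1 : n * (L / n) ≤ L := Nat.mul_div_le L n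
  have d2 : L < n * (L / n + 1) := Nat.lt_mul_div_succ L (by omega)
  have q1 : L < n * q := lt_of_lt_of_le d2 (Nat.mul_le_mul_left n hq1)
  have q2 : n * q ≤ L + n * m := by nlinarith
  have m1 : m = 4 * h ^ 2 := by rw [hm, hn]; ring
  have h2 : h ≤ h ^ 2 := by nlinarith
  have h3 : h ^ 2 ≤ h ^ 3 := Nat.pow_le_pow_right hh (by norm_num)
  have h4 : h ^ 3 ≤ h ^ 4 := Nat.pow_le_pow_right hh (by norm_num)
  have nm : n * m ≤ 16 * h ^ 3 := by
    rw [m1]
    nlinarith [Nat.mul_le_mul_right (4 * h ^ 2) (show n ≤ 4 * h by omega)]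
  have q3 : 3 * q ≤ n * q := Nat.mul_le_mul_right q hn3
  have q4 : 2 * h * m ≤ q := by
    by_contra hlt
    have : n * q ≤ 4 * h * (2 * h * m) := Nat.mul_le_mul (by omega) (by omega)
    rw [m1] at this
    nlinarith
  have cm : Nat.Coprime L m := (Nat.coprime_of_lt_prime hm0.ne' (by omega) hp)
  have cq : Nat.Coprime L q := (Nat.coprime_of_lt_prime hq0.ne' (by omega) hp)
  have cmq : Nat.Coprime m q := by
    have : Nat.gcd m q ∣ L := (Nat.dvd_add_left (Dvd.dvd.mul_left (Nat.gcd_dvd_right m q) u)).mp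
      (hw ▸ Dvd.dvd.mul_left (Nat.gcd_dvd_left m q) w)
    exact Nat.eq_one_of_dvd_coprimes cm this (Nat.gcd_dvd_left m q)
  refine ⟨q, m, hq0, hm0, cmq.symm, cm, cq, ?_, ?_⟩
  · rw [mem_iff L q m u w h hw cmq]
    rintro ⟨k, k1, k2⟩
    have k3 : j + 1 ≤ k := by
      by_contra hlt
      have : k * m ≤ j * m := Nat.mul_le_mul_right m (by omega)
      rw [hu, hm] at *
      nlinarith
    have k4 : (j + 1) * q * (n + 1) ≤ h * w * (n + 1) :=
      Nat.mul_le_mul_right _ (le_trans (Nat.mul_le_mul_right q k3) k2)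
    have k5 : h * w * (n + 1) = L + u * q := by rw [← hw, hm]; ring
    rw [k5, hu] at k4
    nlinarith
  · intro x k k1 k2
    rw [mem_iff L q m u w x hw cmq]
    have e : x * w * m = x * L + x * u * q := by rw [mul_assoc, hw]; ring
    by_cases hx : x ≤ 2 * h
    · refine ⟨k, ?_, Nat.le_of_mul_le_mul_right ?_ hm0⟩
      · have := Nat.mul_le_mul_right (n + 1) (show j * x + 1 ≤ k * h from k1)
        rw [hu, hm]
        nlinarith
      · have a1 := Nat.mul_le_mul_right ((n + 1) * q) (show k * h + 1 ≤ (j + 1) * x from k2)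
        have a2 := Nat.mul_le_mul_left x q2
        have a3 : x * (n * m) ≤ n * q := by
          nlinarith [Nat.mul_le_mul_left n (le_trans (Nat.mul_le_mul_right m hx) q4)]
        have a4 : k * q * m = k * h * ((n + 1) * q) := by rw [hm]; ring
        rw [e, a4, hu]
        nlinarith
    · have b1 : x * u < m * (x * u / m + 1) := Nat.lt_mul_div_succ _ hm0
      have b2 : m * (x * u / m) ≤ x * u := Nat.mul_div_le _ _
      refine ⟨x * u / m + 1, by nlinarith, Nat.le_of_mul_le_mul_right ?_ hm0⟩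
      have b3 : (n + 1) * q ≤ 2 * L := by nlinarith
      have b4 : m * q ≤ x * L := by
        have := Nat.mul_le_mul_left h b3
        have := Nat.mul_le_mul_right L (show 2 * h ≤ x by omega)
        rw [hm]
        nlinarith
      have := Nat.mul_le_mul_right q b2
      rw [e]
      nlinarith

theorem result (a b c : ℕ) (hb : b ≠ 0) : ∃ (L n : ℕ) (q m : Fin n → ℕ), 0 < L ∧ 0 < n ∧
    (∀ i, 0 < q i ∧ 0 < m i ∧ Nat.gcd (q i) (m i) = 1 ∧ Nat.gcd L (m i) = 1 ∧
      Nat.gcd L (q i) = 1) ∧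
    ∀ x : ℕ, (x = 0 ∨ ((a * x % b : ℕ) : ℤ) ≤ (x : ℤ) - c) ↔
      ∀ i, L * x ∈ AddSubmonoid.closure ({q i, m i} : Set ℕ) := by
  obtain ⟨L, hL, hp⟩ := Nat.exists_infinite_primes (100 * (b + c) ^ 4 + 1)
  have key : ∀ h : Fin (b + c), ∃ q m, (0 < q ∧ 0 < m ∧ Nat.gcd q m = 1 ∧ Nat.gcd L m = 1 ∧
      Nat.gcd L q = 1) ∧ (L * h ∈ AddSubmonoid.closure ({q, m} : Set ℕ) →
        (h : ℕ) = 0 ∨ a * h % b + c ≤ h) ∧
      ∀ x, a * x % b + c ≤ x → L * x ∈ AddSubmonoid.closure ({q, m} : Set ℕ) := by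
    rintro ⟨h, hlt⟩
    by_cases hg : h = 0 ∨ a * h % b + c ≤ h
    · exact ⟨1, 1, by simp, fun _ => hg, fun x _ =>
        (AddSubmonoid.mem_closure_pair _ _ _).mpr ⟨L * x, 0, by simp⟩⟩
    push Not at hg
    have hh : 0 < h := by omega
    obtain ⟨q, m, h1, h2, h3, h4, h5, h6, h7⟩ := sep h (a * h / b) L hh hp
      (by have := Nat.pow_le_pow_left hlt.le 4; omega)
    refine ⟨q, m, ⟨h1, h2, h3, h4, h5⟩, fun e => absurd e h6, fun x hx => ?_⟩
    rcases Nat.eq_zero_or_pos x with rfl | hx0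
    · simp
    by_cases hxh : h < x
    · have b1 : a * h / b * x < h * (a * h / b * x / h + 1) := Nat.lt_mul_div_succ _ hh
      have b2 : h * (a * h / b * x / h) ≤ a * h / b * x := Nat.mul_div_le _ _
      exact h7 x (a * h / b * x / h + 1) (by nlinarith) (by nlinarith)
    · have e1 := Nat.div_add_mod (a * h) b
      have e2 := Nat.div_add_mod (a * x) b
      have e3 := Nat.mod_lt (a * h) (Nat.pos_of_ne_zero hb)
      have hg2 := hg.2
      generalize a * h / b = j at *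
      generalize a * h % b = r at *
      generalize a * x / b = k at *
      generalize a * x % b = s at *
      have e4 : (b * j + r) * x = (b * k + s) * h := by rw [e1, e2]; ring
      refine h7 x k (lt_of_mul_lt_mul_left (a := b) ?_ (by omega))
        (lt_of_mul_lt_mul_left (a := b) ?_ (by omega))
      · have f1 := Nat.mul_le_mul_right x (show h + 1 ≤ r + c from hg2)
        have f2 := Nat.mul_le_mul_right h hx
        have f3 := Nat.mul_le_mul_left c (show x ≤ h by omega)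
        nlinarith
      · have f1 := Nat.mul_le_mul_right x (show r + 1 ≤ b from e3)
        nlinarith
  choose q m h1 h2 h3 using key
  refine ⟨L, b + c, q, m, hp.pos, by omega, h1, fun x => ⟨?_, fun hx => ?_⟩⟩
  · rintro (rfl | hx) i
    · simp
    · exact h3 i x (by omega)
  · by_cases hlt : x < b + c
    · have := h2 ⟨x, hlt⟩ (hx _)
      simp only at this
      omega
    · have := Nat.mod_lt (a * x) (Nat.pos_of_ne_zero hb)
      omega

end Pool.Agent.Results.MP_94066b_nt.Toms
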